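import Pool.Agent.H586.SLB.Stm

/-!
# Project SLB (helper586), task GAP: clustering implies the mass gap (helper588)
-/

set_option autoImplicit false
set_option linter.unusedSectionVars false
set_option linter.deprecated false

open Set Filter Topology
open scoped InnerProductSpace ComplexConjugate

namespace Pool.Agent.H588.SLB

open Pool.Agent.N990.OS

theorem le_of_pow {a b C : ℝ} (hb : 0 < b) (h : ∀ k : ℕ, a ^ (2 ^ (k + 1)) ≤ C * b ^ (2 ^ (k + 1))) :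
    a ≤ b := by
  by_contra hlt
  rw [not_le] at hlt
  have h1 : 1 < a / b := (one_lt_div hb).2 hlt
  obtain ⟨n, hn⟩ := pow_unbounded_of_one_lt C h1
  have h2 : n ≤ 2 ^ (n + 1) := (Nat.lt_two_pow_self.le).trans
    (Nat.pow_le_pow_right (by norm_num) (Nat.le_succ n))
  have h3 : (a / b) ^ n ≤ (a / b) ^ (2 ^ (n + 1)) := pow_le_pow_right₀ h1.le h2
  have h4 : (a / b) ^ (2 ^ (n + 1)) ≤ C := by
    rw [div_pow, div_le_iff₀ (by positivity)]
    exact h n
  linarith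

section

variable {H : Type} [NormedAddCommGroup H] [InnerProductSpace ℂ H] [CompleteSpace H]
  {T : ℝ → H →L[ℂ] H} {v : H}

theorem symm (hT : IsSemi T v) {t : ℝ} (ht : 0 ≤ t) (x y : H) :
    inner ℂ (T t x) y = inner ℂ x (T t y) := (hT.pos t ht).inner_left_eq_inner_right x y

theorem inner_vac (hT : IsSemi T v) {t : ℝ} (ht : 0 ≤ t) (x : H) :
    inner ℂ v (T t x) = inner ℂ v x := by
  rw [← symm hT ht, hT.vac t ht]

theorem inner_vac' (hT : IsSemi T v) {t : ℝ} (ht : 0 ≤ t) (x : H) :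
    inner ℂ (T t x) v = inner ℂ x v := by
  rw [symm hT ht, hT.vac t ht]

/-- clustering for the span -/
theorem span_bound {X : Type} {J : X → H} {m : ℝ}
    (h : ∀ x y, ∃ C : ℝ, ∀ t, 0 ≤ t →
      ‖inner ℂ (J x) (T t (J y)) - inner ℂ (J x) v * inner ℂ v (J y)‖ ≤ C * Real.exp (-(m * t)))
    {u : H} (hu : u ∈ Submodule.span ℂ (range J)) {u' : H}
    (hu' : u' ∈ Submodule.span ℂ (range J)) : ∃ C : ℝ, ∀ t, 0 ≤ t →
      ‖inner ℂ u (T t u') - inner ℂ u v * inner ℂ v u'‖ ≤ C * Real.exp (-(m * t)) := by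
  induction hu using Submodule.span_induction with
  | mem u hu =>
    obtain ⟨x, rfl⟩ := hu
    induction hu' using Submodule.span_induction with
    | mem u' hu' =>
      obtain ⟨y, rfl⟩ := hu'
      exact h x y
    | zero => exact ⟨0, fun t _ => by simp⟩
    | add a b _ _ ha hb =>
      obtain ⟨C, hC⟩ := ha
      obtain ⟨C', hC'⟩ := hb
      refine ⟨C + C', fun t ht => ?_⟩
      rw [map_add, inner_add_right, inner_add_right, mul_add, add_sub_add_comm, add_mul]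
      exact (norm_add_le _ _).trans (add_le_add (hC t ht) (hC' t ht))
    | smul c a _ ha =>
      obtain ⟨C, hC⟩ := ha
      refine ⟨‖c‖ * C, fun t ht => ?_⟩
      rw [map_smul, inner_smul_right, inner_smul_right, mul_left_comm, ← mul_sub, norm_mul,
        mul_assoc]
      exact mul_le_mul_of_nonneg_left (hC t ht) (norm_nonneg c)
  | zero => exact ⟨0, fun t _ => by simp⟩
  | add a b _ _ ha hb =>
    obtain ⟨C, hC⟩ := ha
    obtain ⟨C', hC'⟩ := hb
    refine ⟨C + C', fun t ht => ?_⟩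
    rw [inner_add_left, inner_add_left, add_mul, add_sub_add_comm, add_mul]
    exact (norm_add_le _ _).trans (add_le_add (hC t ht) (hC' t ht))
  | smul c a _ ha =>
    obtain ⟨C, hC⟩ := ha
    refine ⟨‖c‖ * C, fun t ht => ?_⟩
    rw [inner_smul_left, inner_smul_left, mul_assoc (conj c), ← mul_sub, norm_mul,
      RCLike.norm_conj, mul_assoc]
    exact mul_le_mul_of_nonneg_left (hC t ht) (norm_nonneg c)

theorem norm_sq_T (hT : IsSemi T v) {t : ℝ} (ht : 0 ≤ t) (w : H) :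
    ((‖T t w‖ ^ 2 : ℝ) : ℂ) = inner ℂ w (T (t + t) w) := by
  rw [hT.add t t ht ht, ContinuousLinearMap.mul_apply, ← symm hT ht, inner_self_eq_norm_sq_to_K]
  norm_num

theorem conv_T (hT : IsSemi T v) {t : ℝ} (ht : 0 ≤ t) (w : H) :
    ‖T t w‖ ^ 2 ≤ ‖w‖ * ‖T (t + t) w‖ := by
  have h1 : ‖T t w‖ ^ 2 = ‖(inner ℂ w (T (t + t) w) : ℂ)‖ := by
    rw [← norm_sq_T hT ht, Complex.norm_real, Real.norm_of_nonneg (by positivity)]
  rw [h1]
  exact norm_inner_le_norm _ _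

theorem iter_T (hT : IsSemi T v) {t : ℝ} (ht : 0 ≤ t) {w : H} (hw : 0 < ‖w‖) (k : ℕ) :
    ‖T t w‖ ^ (2 ^ k) * ‖w‖ ≤ ‖w‖ ^ (2 ^ k) * ‖T (2 ^ k * t) w‖ := by
  induction k with
  | zero =>
    have h0 : (2 : ℝ) ^ 0 * t = t := by rw [pow_zero, one_mul]
    rw [h0, pow_zero, pow_one, pow_one, mul_comm]
  | succ k ih =>
    have h1 : (‖T t w‖ ^ (2 ^ k) * ‖w‖) ^ 2 ≤ (‖w‖ ^ (2 ^ k) * ‖T (2 ^ k * t) w‖) ^ 2 :=
      pow_le_pow_left₀ (by positivity) ih 2
    have h2 := conv_T hT (show 0 ≤ 2 ^ k * t by positivity) w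
    have h3 : 2 ^ (k + 1) * t = 2 ^ k * t + 2 ^ k * t := by ring
    rw [h3, pow_succ 2 k, pow_mul, pow_mul]
    have h4 : (‖w‖ ^ (2 ^ k) * ‖T (2 ^ k * t) w‖) ^ 2 ≤
        (‖w‖ ^ (2 ^ k)) ^ 2 * (‖w‖ * ‖T (2 ^ k * t + 2 ^ k * t) w‖) := by
      rw [mul_pow]
      exact mul_le_mul_of_nonneg_left h2 (by positivity)
    have h5 : ((‖T t w‖ ^ (2 ^ k)) ^ 2 * ‖w‖) * ‖w‖ ≤
        ((‖w‖ ^ (2 ^ k)) ^ 2 * ‖T (2 ^ k * t + 2 ^ k * t) w‖) * ‖w‖ := by
      calc ((‖T t w‖ ^ (2 ^ k)) ^ 2 * ‖w‖) * ‖w‖ = (‖T t w‖ ^ (2 ^ k) * ‖w‖) ^ 2 := by ring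
        _ ≤ _ := h1.trans h4
        _ = _ := by ring
    exact le_of_mul_le_mul_right h5 hw

/-- the decay of a vector with clustering -/
theorem decay (hT : IsSemi T v) {m C : ℝ} {w : H}
    (hC : ∀ t, 0 ≤ t → ‖(inner ℂ w (T t w) : ℂ)‖ ≤ C * Real.exp (-(m * t))) {t : ℝ} (ht : 0 ≤ t) :
    ‖T t w‖ ≤ Real.exp (-(m * t)) * ‖w‖ := by
  rcases eq_or_lt_of_le (norm_nonneg w) with hw | hw
  · rw [← hw, mul_zero]
    have h0 : w = 0 := norm_eq_zero.1 hw.symm
    rw [h0, map_zero, norm_zero]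
  · refine le_of_pow (C := C / ‖w‖ ^ 2) (by positivity) fun k => ?_
    have h1 := iter_T hT ht hw k
    have h2 : (‖T t w‖ ^ (2 ^ k) * ‖w‖) ^ 2 ≤ (‖w‖ ^ (2 ^ k) * ‖T (2 ^ k * t) w‖) ^ 2 :=
      pow_le_pow_left₀ (by positivity) h1 2
    have ht' : 0 ≤ 2 ^ k * t := by positivity
    have h3 : ‖T (2 ^ k * t) w‖ ^ 2 ≤ C * Real.exp (-(m * (2 ^ k * t + 2 ^ k * t))) := by
      have h4 : ‖T (2 ^ k * t) w‖ ^ 2 =
          ‖(inner ℂ w (T (2 ^ k * t + 2 ^ k * t) w) : ℂ)‖ := by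
        rw [← norm_sq_T hT ht', Complex.norm_real, Real.norm_of_nonneg (by positivity)]
      rw [h4]
      exact hC _ (by positivity)
    have h5 : Real.exp (-(m * (2 ^ k * t + 2 ^ k * t))) = Real.exp (-(m * t)) ^ (2 ^ (k + 1)) := by
      rw [← Real.exp_nat_mul]
      congr 1
      push_cast
      ring
    rw [h5] at h3
    rw [div_mul_eq_mul_div, le_div_iff₀ (by positivity)]
    calc ‖T t w‖ ^ (2 ^ (k + 1)) * ‖w‖ ^ 2 = (‖T t w‖ ^ (2 ^ k) * ‖w‖) ^ 2 := by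
          rw [pow_succ 2 k, pow_mul]
          ring
      _ ≤ (‖w‖ ^ (2 ^ k)) ^ 2 * ‖T (2 ^ k * t) w‖ ^ 2 := by
          rw [← mul_pow]
          exact h2
      _ ≤ (‖w‖ ^ (2 ^ k)) ^ 2 * (C * Real.exp (-(m * t)) ^ (2 ^ (k + 1))) :=
          mul_le_mul_of_nonneg_left h3 (by positivity)
      _ = C * (Real.exp (-(m * t)) * ‖w‖) ^ (2 ^ (k + 1)) := by
          rw [mul_pow (Real.exp (-(m * t))), pow_succ 2 k, pow_mul ‖w‖]
          ring

theorem inner_proj (hT : IsSemi T v) {t : ℝ} (ht : 0 ≤ t) (u : H) :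
    inner ℂ (u - (inner ℂ v u : ℂ) • v) (T t (u - (inner ℂ v u : ℂ) • v)) =
      inner ℂ u (T t u) - inner ℂ u v * inner ℂ v u := by
  have h1 : (inner ℂ v v : ℂ) = 1 := by
    rw [inner_self_eq_norm_sq_to_K, hT.one]
    norm_num
  rw [map_sub, map_smul, hT.vac t ht, inner_sub_left, inner_sub_right, inner_sub_right,
    inner_smul_left, inner_smul_left, inner_smul_right, inner_smul_right, inner_vac hT ht, h1,
    inner_conj_symm]
  ring

end

/-- **Task GAP.** -/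
theorem gap : Pool.Agent.H586.SLB.S_GAP := by
  intro H _ _ _ T v hT X J hJ m h t ht x hx
  have hcl : IsClosed {u : H | ‖T t (u - (inner ℂ v u : ℂ) • v)‖ ≤
      Real.exp (-(m * t)) * ‖u - (inner ℂ v u : ℂ) • v‖} := by
    have hc : Continuous fun u : H => u - (inner ℂ v u : ℂ) • v :=
      continuous_id.sub ((continuous_const.inner continuous_id).smul continuous_const)
    exact isClosed_le ((T t).continuous.comp hc).norm (continuous_const.mul hc.norm)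
  have hsp : (Submodule.span ℂ (range J) : Set H) ⊆
      {u : H | ‖T t (u - (inner ℂ v u : ℂ) • v)‖ ≤
        Real.exp (-(m * t)) * ‖u - (inner ℂ v u : ℂ) • v‖} := by
    intro u hu
    obtain ⟨C, hC⟩ := span_bound h hu hu
    refine decay hT (C := C) (fun s hs => ?_) ht
    rw [inner_proj hT hs]
    exact hC s hs
  have h1 := closure_minimal hsp hcl (hJ x)
  have h2 : x - (inner ℂ v x : ℂ) • v = x := by
    rw [hx, zero_smul, sub_zero]
  rw [Set.mem_ofPred_eq, h2] at h1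
  exact h1

end Pool.Agent.H588.SLB
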